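import Mathlib
import Pool.Agent.Helper61_Gamma.Abs

/-!
A primitive planar vector field of small degree with vanishing extactic polynomial is constant or
radial.
-/

set_option autoImplicit false

namespace Pool.Agent.BOG.H69

open MvPolynomial
open Pool.Agent.Helper61_Gamma

universe v

variable {K : Type v} [Field K]

lemma sum_le_of_coeff {f : MvPolynomial (Fin 2) K} {D : ℕ} (hD : f.totalDegree ≤ D)
    {n : Fin 2 →₀ ℕ} (hn : coeff n f ≠ 0) : n 0 + n 1 ≤ D := by
  have h1 := le_totalDegree (mem_support_iff.mpr hn)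
  rw [Finsupp.sum_fintype _ _ (fun _ => rfl), Fin.sum_univ_two] at h1
  omega

lemma le_of_coeff {f : MvPolynomial (Fin 2) K} {D : ℕ} (hD : f.totalDegree ≤ D)
    {n : Fin 2 →₀ ℕ} (hn : coeff n f ≠ 0) (i : Fin 2) : n i ≤ D := by
  have := sum_le_of_coeff hD hn
  fin_cases i
  · simp only [Fin.zero_eta]
    omega
  · simp only [Fin.mk_one]
    omega

lemma coeff_mul_eq (i : Fin 2) (f : MvPolynomial (Fin 2) K) (n : Fin 2 →₀ ℕ) (hn : n i ≠ 0) :
    coeff (n - Finsupp.single i 1) (pderiv i f) = coeff n f * (n i : K) := by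
  have h1 : n - Finsupp.single i 1 + Finsupp.single i 1 = n := by
    ext a
    simp only [Finsupp.coe_add, Finsupp.coe_tsub, Pi.add_apply, Pi.sub_apply]
    by_cases h : i = a
    · subst h
      simp only [Finsupp.single_eq_same]
      omega
    · simp [Finsupp.single_apply, h]
  rw [coeff_pderiv, h1]
  congr 1
  have h2 : ((n - Finsupp.single i 1 : Fin 2 →₀ ℕ)) i = n i - 1 := by
    simp [Finsupp.coe_tsub]
  rw [h2, Nat.cast_sub (by omega)]
  simp

lemma coeff_zero_of_pderiv {i : Fin 2} {f : MvPolynomial (Fin 2) K} (h : pderiv i f = 0) {D : ℕ}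
    (hD : f.totalDegree ≤ D) (hch : ∀ r : ℕ, 0 < r → r ≤ D → (r : K) ≠ 0) (n : Fin 2 →₀ ℕ)
    (hn : n i ≠ 0) : coeff n f = 0 := by
  by_contra hc
  have h1 := coeff_mul_eq i f n hn
  rw [h, coeff_zero] at h1
  exact mul_ne_zero hc (hch _ (Nat.pos_of_ne_zero hn) (le_of_coeff hD hc i)) h1.symm

lemma linear_of {i j : Fin 2} (hij : i ≠ j) {f g : MvPolynomial (Fin 2) K} {D : ℕ}
    (hf : f.totalDegree ≤ D) (hg : g.totalDegree ≤ D)
    (hch : ∀ r : ℕ, 0 < r → r ≤ D → (r : K) ≠ 0) (h1 : pderiv j f = 0) (h2 : pderiv i g = 0)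
    (h3 : pderiv i f = pderiv j g) :
    f = C (coeff 0 f) + C (coeff (Finsupp.single i 1) f) * X i := by
  have hall : ∀ a : Fin 2, a = i ∨ a = j := by
    intro a
    fin_cases a <;> fin_cases i <;> fin_cases j <;> simp_all
  ext n
  rw [coeff_add, coeff_C, coeff_C_mul, coeff_X']
  by_cases hnj : n j ≠ 0
  · rw [coeff_zero_of_pderiv h1 hf hch n hnj]
    have e1 : (0 : Fin 2 →₀ ℕ) ≠ n := by
      rintro rfl
      simp at hnj
    have e2 : Finsupp.single i 1 ≠ n := by
      rintro rfl
      simp [hij] at hnj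
    rw [if_neg e1, if_neg e2]
    simp
  · push Not at hnj
    rcases Nat.lt_or_ge (n i) 2 with h | h
    · rcases Nat.eq_zero_or_pos (n i) with h0 | h0
      · have e1 : n = 0 := by
          ext a
          rcases hall a with rfl | rfl
          · simpa using h0
          · simpa using hnj
        subst e1
        have e2 : Finsupp.single i 1 ≠ (0 : Fin 2 →₀ ℕ) := by
          simp
        rw [if_pos rfl, if_neg e2]
        simp
      · have e1 : n = Finsupp.single i 1 := by
          ext a
          rcases hall a with rfl | rfl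
          · simp only [Finsupp.single_eq_same]
            omega
          · rw [hnj]
            simp [hij]
        subst e1
        have e2 : (0 : Fin 2 →₀ ℕ) ≠ Finsupp.single i 1 :=
          (Finsupp.single_ne_zero.mpr one_ne_zero).symm
        rw [if_neg e2, if_pos rfl]
        simp
    · have e1 : (0 : Fin 2 →₀ ℕ) ≠ n := by
        rintro rfl
        simp at h
      have e2 : Finsupp.single i 1 ≠ n := by
        rintro rfl
        rw [Finsupp.single_eq_same] at h
        omega
      rw [if_neg e1, if_neg e2]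
      simp only [mul_zero, add_zero]
      by_contra hc
      have h4 := coeff_mul_eq i f n (by omega)
      have h5 : coeff (n - Finsupp.single i 1) (pderiv j g) = 0 := by
        rw [coeff_pderiv]
        have h6 : coeff (n - Finsupp.single i 1 + Finsupp.single j 1) g = 0 := by
          apply coeff_zero_of_pderiv h2 hg hch
          simp only [Finsupp.coe_add, Finsupp.coe_tsub, Pi.add_apply, Pi.sub_apply,
            Finsupp.single_eq_same]
          omega
        rw [h6, zero_mul]
      rw [h3, h5] at h4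
      exact mul_ne_zero hc (hch _ (by omega) (le_of_coeff hf hc i)) h4.symm

lemma radial_of_wron {φ : MvPolynomial (Fin 2) K × MvPolynomial (Fin 2) K}
    (hrel : IsRelPrime φ.1 φ.2) (hW : wron φ = 0)
    (hch : ∀ r : ℕ, 0 < r → r ≤ mdeg φ → (r : K) ≠ 0) :
    ∃ a b l : K, φ.1 = C a + C l * X 0 ∧ φ.2 = C b + C l * X 1 := by
  obtain ⟨h1, h2, h3⟩ := pderiv_of_wron hrel hW
  have hf : φ.1.totalDegree ≤ mdeg φ := le_max_left _ _
  have hg : φ.2.totalDegree ≤ mdeg φ := le_max_right _ _
  have e1 := linear_of (i := 0) (j := 1) (by decide) hf hg hch h1 h2 h3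
  have e2 := linear_of (i := 1) (j := 0) (by decide) hg hf hch h2 h1 h3.symm
  refine ⟨coeff 0 φ.1, coeff 0 φ.2, coeff (Finsupp.single 0 1) φ.1, e1, ?_⟩
  have h4 : coeff (Finsupp.single 0 1) φ.1 = coeff (Finsupp.single 1 1) φ.2 := by
    have h5 := congrArg (coeff 0) h3
    rw [coeff_pderiv, coeff_pderiv] at h5
    simpa using h5
  rw [h4]
  exact e2

end Pool.Agent.BOG.H69
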