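import Mathlib
import Pool.Agent.Helper69_BOG.Rad
import Pool.Agent.Helper61_Gamma.Glue

/-!
A point set with at least `7q/2` points in a projective plane of order `q` has no coordinatisation
over a field of characteristic `0` or `≥ 7q/6`.
-/

set_option autoImplicit false

open Configuration Configuration.ProjectivePlane

namespace Pool.Agent.BOG.H69

open Pool.Agent.Helper61_Gamma

variable {P L : Type*} [Membership P L] [ProjectivePlane P L]
variable {K : Type*} [Field K] [DecidableEq P] [Fintype L] [Fintype P]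

lemma num_key (N q v t0 s : ℤ) (hs0 : 0 ≤ s) (hs1 : s ≤ 1) (hq' : 2 ≤ q) (hsN : 2 * (N + 1) = 7 * q + s)
    (hv1 : N + 1 ≤ 3 * v) (hv2 : 3 * v ≤ N + 3)
    (hT : 20 * t0 ≤ (N + 1) * (N + 1 + q) - 9 * ((N + 1) * (q + 1)) + 20 * (q ^ 2 + q + 1)) :
    t0 < (v - q) * (N - q - v) := by
  rcases eq_or_lt_of_le hq' with hq2 | hq3
  · subst hq2
    have h1 : N = 6 := by omega
    subst h1
    have h2 : v = 3 := by omega
    subst h2
    norm_num at hT ⊢
    omega
  have hq : 3 ≤ q := hq3
  obtain ⟨δ, hδ⟩ : ∃ δ : ℤ, δ = 3 * v - (N + 1) := ⟨_, rfl⟩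
  have hδ0 : 0 ≤ δ := by linarith
  have hδ2 : δ ≤ 2 := by linarith
  have e1 : 6 * (v - q) = q + s + 2 * δ := by linarith
  have e2 : 6 * (N - q - v) = 8 * q + 2 * s - 2 * δ - 6 := by linarith
  have e4 : 36 * ((v - q) * (N - q - v)) = (q + s + 2 * δ) * (8 * q + 2 * s - 2 * δ - 6) := by
    rw [← e1, ← e2]
    ring
  have e5 : 4 * ((N + 1) * (N + 1 + q)) = (7 * q + s) * ((7 * q + s) + 2 * q) := by
    rw [← hsN]
    ring
  have e6 : 4 * (9 * ((N + 1) * (q + 1))) = 18 * ((7 * q + s) * (q + 1)) := by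
    rw [← hsN]
    ring
  have h3 : 0 ≤ s * q := mul_nonneg hs0 (by linarith)
  have h4 : 0 ≤ δ * (q - 3) := mul_nonneg hδ0 (by linarith)
  have h5 : 0 ≤ (q - 3) * (q - 3) := mul_self_nonneg _
  have h6 : 0 ≤ δ * (2 - δ) := mul_nonneg hδ0 (by linarith)
  have h7 : 0 ≤ δ * s := mul_nonneg hδ0 hs0
  have h8 : 0 ≤ s * s := mul_self_nonneg _
  have e7 : 720 * ((v - q) * (N - q - v)) - 720 * t0 ≥
      7 * q ^ 2 + 218 * (q * s) + 280 * (δ * q) + 294 * q + 31 * (s * s) + 40 * (δ * s) +
        42 * s - 80 * (δ * δ) - 240 * δ - 720 := by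
    linarith
  nlinarith

lemma num_ex (N q v D t0 R2 : ℤ) (hD0 : 0 ≤ D) (hN : N = D + v) (hv2 : 3 * v ≤ N + 3)
    (hkey : t0 < (v - q) * (N - q - v))
    (hR : R2 + 2 * t0 = (N + 1) * (N + 1 + q) - 3 * ((N + 1) * (q + 1)) + 2 * (q ^ 2 + q + 1))
    (hlow : 2 * ((D + 1) * (D + 2)) + R2 ≤ 2 * (N * (D + 1)) + (v - 1) * (v - 2)) : False := by
  have h9 : 0 ≤ D * (N - 3 * v + 3) := mul_nonneg hD0 (by linarith)
  subst hN
  nlinarith

lemma num_up (N q v r t0 a b R2 fr : ℤ) (hrv : v ≤ r) (hrN : r ≤ N - v) (hr : r = q + 1 + a)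
    (hN : N = q + r + 1 + b) (hkey : t0 < (v - q) * (N - q - v))
    (hR : R2 + 2 * t0 = (N + 1) * (N + 1 + q) - 3 * ((N + 1) * (q + 1)) + 2 * (q ^ 2 + q + 1))
    (hlow : 2 * ((2 * N + 1) * (2 * N + 2)) + R2 ≤ 2 * fr + 2 * (N * (2 * N + 1)))
    (hupp : 2 * fr ≤ (N + q + 1 + b + 1) * (N + q + 1 + b + 2) + (N + r + 1) * (N + r + 2)) :
    False := by
  have hmm : 0 ≤ (r - v) * (N - r - v) := mul_nonneg (by linarith) (by linarith)
  have key2 : (r - q) * (N - q - r) = (a + 1) * (b + 1) := by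
    rw [hN, hr]
    ring
  have key : (a + 1) * (b + 1) ≤ t0 := by
    rw [hr] at hN hupp
    rw [hN] at hupp hlow hR
    linarith
  nlinarith

/-- a set of points of `S ∖ {ω}` whose affine lines all belong to one pencil is collinear -/
lemma card_le_of_pencil {S : Finset P} {ω : P} {m k : P → K} (hC : Coord L S ω m k)
    {B : Finset P} (hB : B ⊆ S.erase ω)
    (hcol : ∀ s ∈ B, ∀ t ∈ B, ∀ u ∈ B, (m t - m s) * (k u - k s) = (m u - m s) * (k t - k s)) :
    B.card ≤ order P L + 1 := by
  classical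
  by_cases h2 : B.card ≤ 1
  · omega
  · push Not at h2
    obtain ⟨s, hs, t, ht, hst⟩ := Finset.one_lt_card.mp h2
    have hsub : ∀ u ∈ B, u ∈ ln L s t := by
      intro u hu
      by_cases hus : u = s
      · rw [hus]; exact left_mem_ln hst
      by_cases hut : u = t
      · rw [hut]; exact right_mem_ln hst
      exact (hC.col s (hB hs) t (hB ht) u (hB hu) hst (Ne.symm hus) (Ne.symm hut)).mpr
        (hcol s hs t ht u hu)
    have h3 : B.card ≤ (Finset.univ.filter (fun p : P => p ∈ ln L s t)).card :=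
      Finset.card_le_card (fun u hu => Finset.mem_filter.mpr ⟨Finset.mem_univ _, hsub u hu⟩)
    have h4 := pointCount_eq P (ln L s t)
    rw [pointCount, Nat.card_eq_fintype_card, Fintype.card_subtype] at h4
    omega

theorem no_coord_lin {S : Finset P} {ω : P} {m k : P → K} (hC : Coord L S ω m k)
    (hq : 2 ≤ order P L) (hS1 : 7 * order P L ≤ 2 * S.card) (hS2 : 2 * S.card ≤ 7 * order P L + 1)
    (hchar : ∀ r : ℕ, 0 < r → 3 * r < S.card → (r : K) ≠ 0) : False := by
  classical
  set q := order P L with hqdef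
  set N := (S.erase ω).card with hN
  have hNS : N + 1 = S.card := by
    rw [hN, Finset.card_erase_of_mem hC.mem]
    have : 0 < S.card := Finset.card_pos.mpr ⟨ω, hC.mem⟩
    omega
  have hR := R2_eq (L := L) S
  have hins : insert ω (S.erase ω) = S := Finset.insert_erase hC.mem
  have ht0 := tcount_le (L := L) S 4 0
  rw [← hNS] at hR ht0 hS1 hS2
  rw [← hqdef] at hR ht0
  obtain ⟨v, hv⟩ : ∃ v, v = N / 3 + 1 := ⟨_, rfl⟩
  have hv1 : 3 * v ≥ N + 1 := by omega
  have hv2 : 3 * v ≤ N + 3 := by omega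
  obtain ⟨D, hD⟩ : ∃ D, N = D + v := Nat.exists_eq_add_of_le' (by omega)
  -- existence
  have hlow1 := hC.finrank_lower D (S.erase ω) (Finset.Subset.refl _)
  rw [hins, ← hN, sum_range_trunc N (D + 1) (by omega)] at hlow1
  have e3 : N - (D + 1) = v - 1 := by omega
  rw [e3] at hlow1
  have hvq : q + 1 ≤ v := by omega
  set t0 := tcount L S 0 with ht0def
  have hs : ∃ s : ℤ, 0 ≤ s ∧ s ≤ 1 ∧ 2 * ((N : ℤ) + 1) = 7 * q + s :=
    ⟨2 * (N + 1) - 7 * q, by omega, by omega, by ring⟩
  obtain ⟨s, hs0, hs1, hsN⟩ := hs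
  have hqZ : (2 : ℤ) ≤ q := by exact_mod_cast hq
  have hT : (20 : ℤ) * t0 ≤ ((N : ℤ) + 1) * (N + 1 + q) - 9 * ((N + 1) * (q + 1)) +
      20 * (q ^ 2 + q + 1) := by
    push_cast at ht0
    linarith
  have hkey : (t0 : ℤ) < (v - q) * (N - q - v) :=
    num_key N q v t0 s hs0 hs1 hqZ hsN (by exact_mod_cast hv1) (by exact_mod_cast hv2) hT
  -- existence
  have hpos : 0 < Module.finrank K (VF (S.erase ω) m k D) := by
    rw [Nat.pos_iff_ne_zero]
    intro h0
    rw [h0] at hlow1
    obtain ⟨v', hv'⟩ : ∃ v', v = v' + 2 := ⟨v - 2, by omega⟩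
    have e4 : v - 1 = v' + 1 := by omega
    have e5 : v' + 1 - 1 = v' := by omega
    rw [e4, e5] at hlow1
    apply num_ex N q v D t0 (R2 L S) (Int.natCast_nonneg D) (by exact_mod_cast hD)
      (by exact_mod_cast hv2) hkey
    · push_cast at hR
      linarith
    · have hvZ : (v : ℤ) = v' + 2 := by exact_mod_cast hv'
      have h1 : 2 * (((D : ℤ) + 1) * (D + 2)) + R2 L S ≤
          2 * 0 + 2 * (N * (D + 1)) + (v' + 1) * v' := by exact_mod_cast hlow1
      rw [hvZ]
      linarith
  obtain ⟨θ₀, hmin, hdeg⟩ := exists_isMin hpos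
  -- upper bound
  set r := mdeg θ₀ with hr
  have hupp := finrank_VF_upper hC.inj hmin (D := 2 * N) (by omega) (by omega)
  have hlow2 := hC.finrank_lower (2 * N) (S.erase ω) (Finset.Subset.refl _)
  rw [hins, ← hN, sum_range_trunc_zero N (2 * N + 1) (by omega)] at hlow2
  rw [← hN, ← hr] at hupp
  have hrv : r < v := by
    by_contra hcon
    push Not at hcon
    obtain ⟨a, ha⟩ : ∃ a, r = q + 1 + a := Nat.exists_eq_add_of_le (by omega)
    obtain ⟨b, hb⟩ : ∃ b, N = q + r + 1 + b := Nat.exists_eq_add_of_le (by omega)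
    have e4 : 2 * N - r = N + q + 1 + b := by omega
    have e5 : 2 * N + r - N = N + r := by omega
    rw [e4, e5] at hupp
    have hrN' : (r : ℤ) ≤ N - v := by
      have h1 : (r : ℤ) ≤ D := by exact_mod_cast hdeg
      have h2 : (N : ℤ) = D + v := by exact_mod_cast hD
      linarith
    apply num_up N q v r t0 a b (R2 L S) (Module.finrank K (VF (S.erase ω) m k (2 * N)))
      (by exact_mod_cast hcon) hrN' (by exact_mod_cast ha) (by exact_mod_cast hb) hkey
    · push_cast at hR
      linarith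
    · have h1 : 2 * ((2 * (N : ℤ) + 1) * (2 * N + 2)) + R2 L S ≤
          2 * Module.finrank K (VF (S.erase ω) m k (2 * N)) + 2 * (N * (2 * N + 1)) +
            2 * 0 := by exact_mod_cast hlow2
      linarith
    · exact_mod_cast hupp
  -- structure
  obtain ⟨c, φ, hc, hφ, hθ⟩ := exists_primitive hmin.ne_zero
  have hφ0 := ne_zero_of_isRelPrime hφ
  have hmd : r = c.totalDegree + mdeg φ := by
    rw [hr, hθ, mdeg_pmul hc hφ0]
  set T := (S.erase ω).filter (fun s => tan (m s) (k s) φ ≠ 0) with hT'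
  have hTsub : T ⊆ S.erase ω := Finset.filter_subset _ _
  have hTcard : T.card ≤ c.totalDegree := by
    have hdvd : ∏ s ∈ T, lin (m s) (k s) ∣ c := by
      apply prod_lin_dvd
      · intro s hs t ht hst
        exact hC.inj s (hTsub hs) t (hTsub ht) hst
      · intro s hs
        obtain ⟨hsA, hne⟩ := Finset.mem_filter.mp hs
        have h1 := hmin.tan_eq s hsA
        rw [hθ, tan_pmul] at h1
        exact (mul_eq_zero.mp h1).resolve_right hne
    obtain ⟨e, he⟩ := hdvd
    have he0 : e ≠ 0 := by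
      rintro rfl
      rw [mul_zero] at he
      exact hc he
    rw [he, MvPolynomial.totalDegree_mul_of_isDomain (prod_lin_ne_zero _ _ _) he0,
      totalDegree_prod_lin]
    omega
  set B := S.erase ω \ T with hB
  have hBcard : B.card + T.card = N := Finset.card_sdiff_add_card_eq_card hTsub
  have htanB : ∀ s ∈ B, tan (m s) (k s) φ = 0 := by
    intro s hs
    obtain ⟨hsA, hsT⟩ := Finset.mem_sdiff.mp hs
    by_contra hne
    exact hsT (Finset.mem_filter.mpr ⟨hsA, hne⟩)
  have hinjB : ∀ s ∈ B, ∀ t ∈ B, s ≠ t → m s ≠ m t ∨ k s ≠ k t := fun s hs t ht hst =>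
    hC.inj s (Finset.sdiff_subset hs) t (Finset.sdiff_subset ht) hst
  have hW : wron φ = 0 := wron_eq_zero hinjB htanB (by omega)
  obtain ⟨a, b, l, hφ1, hφ2⟩ := radial_of_wron hφ hW (by
    intro i hi0 hi
    apply hchar i hi0
    omega)
  have hlin : ∀ s ∈ B, b + l * k s = m s * a := by
    intro s hs
    have h1 := htanB s hs
    rw [tan_apply', hφ1, hφ2] at h1
    simp only [map_add, map_mul, ev_X0, ev_X1, ev_C] at h1
    have h2 := congrArg (Polynomial.eval 0) h1
    simp only [Polynomial.eval_sub, Polynomial.eval_add, Polynomial.eval_mul, Polynomial.eval_C,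
      Polynomial.eval_X, mul_zero, zero_add, add_zero, Polynomial.eval_zero] at h2
    linear_combination h2
  have hBle : B.card ≤ order P L + 1 := by
    apply card_le_of_pencil hC Finset.sdiff_subset
    intro s hs t ht u hu
    have hs' := hlin s hs
    have ht' := hlin t ht
    have hu' := hlin u hu
    by_cases hl : l = 0
    · have ha : a ≠ 0 := by
        rintro rfl
        apply hφ0
        have hb : b = 0 := by
          rw [hl] at hs'
          linear_combination hs'
        rw [Prod.ext_iff]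
        constructor
        · rw [hφ1, hl]
          simp
        · rw [hφ2, hl, hb]
          simp
      have h1 : m t = m s := by
        apply mul_right_cancel₀ ha
        rw [hl] at hs' ht'
        linear_combination hs' - ht'
      have h2 : m u = m s := by
        apply mul_right_cancel₀ ha
        rw [hl] at hs' hu'
        linear_combination hs' - hu'
      rw [h1, h2]
      ring
    · apply mul_left_cancel₀ hl
      linear_combination (m t - m s) * (hu' - hs') - (m u - m s) * (ht' - hs')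
  rw [← hqdef] at hBle
  omega

end Pool.Agent.BOG.H69
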