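import Mathlib
import Pool.Agent.Helper69_BOG.LinThm

/-!
Common rank three matroids of a finite field `F` and of a field of characteristic `0` or
`≥ 7 |F| / 6` have fewer than `7 |F| / 2` points.
-/

set_option autoImplicit false

namespace Pool.Agent.BOG.H69

open Configuration Configuration.ProjectivePlane
open Pool.Agent.Helper61_Gamma
open scoped LinearAlgebra.Projectivization

universe u v w

theorem mat_lin {F : Type w} [Field F] [Finite F] {n : ℕ} (hn1 : 7 * Nat.card F ≤ 2 * n)
    (hn2 : 2 * n ≤ 7 * Nat.card F + 1) {α : Type u} {M : Matroid α} (hs : IsSimple M)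
    (hr : M.eRank = 3) (hF : RepOver F M) {K : Type v} [Field K]
    (hchar : ∀ r : ℕ, 0 < r → 3 * r < n → (r : K) ≠ 0) (hK : RepOver K M) :
    M.E.encard < n := by
  classical
  by_contra hcon
  push Not at hcon
  have hF2 : 2 ≤ Nat.card F := Finite.one_lt_card
  obtain ⟨E0, hE0, hcard⟩ := Set.exists_subset_encard_eq hcon
  have hfin : E0.Finite := Set.finite_of_encard_eq_coe hcard
  have hE' : (hfin.toFinset : Set α) = E0 := hfin.coe_toFinset
  have hc : hfin.toFinset.card = n := by
    have h1 : ((hfin.toFinset.card : ℕ) : ℕ∞) = n := by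
      rw [← Set.encard_coe_eq_coe_finsetCard, hE', hcard]
    exact_mod_cast h1
  obtain ⟨ω, hω⟩ : hfin.toFinset.Nonempty := Finset.card_pos.mp (by omega)
  have : Fintype (ℙ F (Fin 3 → F)) := Fintype.ofFinite _
  obtain ⟨S, ω', m, k, hSc, hC⟩ := exists_coord_of_rep hs hr hF hK
    (E' := hfin.toFinset) (by rw [hE']; exact hE0) hω
  have ho : order (ℙ F (Fin 3 → F)) (ℙ F (Fin 3 → F)) = Nat.card F := order_PP
  rw [hc] at hSc
  apply no_coord_lin hC (by rw [ho]; exact hF2) (by rw [ho, hSc]; exact hn1)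
    (by rw [ho, hSc]; exact hn2)
  intro r hr0 hr3
  rw [hSc] at hr3
  intro h
  apply hchar r hr0 hr3
  apply (algebraMap K (AlgebraicClosure K)).injective
  rw [map_natCast, map_zero]
  exact h

/-- `char K = 0` or `char K > 7p/6`: fewer than `7p/2 + 1/2` points -/
theorem mat_char (p : ℕ) [hp : Fact p.Prime] {α : Type u} {M : Matroid α} (hs : IsSimple M)
    (hr : M.eRank = 3) (hF : RepOver (ZMod p) M) {K : Type v} [Field K]
    (hchar : ringChar K = 0 ∨ 7 * p < 6 * ringChar K) (hK : RepOver K M) {n : ℕ}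
    (hn : 7 * p ≤ 2 * n) : M.E.encard < n := by
  have h1 : M.E.encard < ((7 * p + 1) / 2 : ℕ) := by
    apply mat_lin (F := ZMod p) (by rw [Nat.card_zmod]; omega) (by rw [Nat.card_zmod]; omega)
      hs hr hF _ hK
    intro r hr0 hr3 h0
    have h2 : ringChar K ∣ r := (ringChar.spec K r).mp h0
    rcases hchar with h | h
    · rw [h] at h2
      have := Nat.eq_zero_of_zero_dvd h2
      omega
    · have h3 := Nat.le_of_dvd hr0 h2
      omega
  refine lt_of_lt_of_le h1 ?_
  have : (7 * p + 1) / 2 ≤ n := by omega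
  exact_mod_cast this

/-- `K` finite, `|K| ≤ 6p/7`, `char K ≠ p`: fewer than `7|K|/2 + 1/2` points -/
theorem mat_small (p : ℕ) [hp : Fact p.Prime] {α : Type u} {M : Matroid α} (hs : IsSimple M)
    (hr : M.eRank = 3) (hF : RepOver (ZMod p) M) {K : Type v} [Field K] [Finite K]
    (hK7 : 7 * Nat.card K < 6 * p) (hK : RepOver K M) {n : ℕ}
    (hn : 7 * Nat.card K ≤ 2 * n) : M.E.encard < n := by
  have h1 : M.E.encard < ((7 * Nat.card K + 1) / 2 : ℕ) := by
    apply mat_lin (F := K) (by omega) (by omega) hs hr hK _ hF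
    intro r hr0 hr3 h0
    have h2 : p ∣ r := (ZMod.natCast_eq_zero_iff r p).mp h0
    have h3 := Nat.le_of_dvd hr0 h2
    omega
  refine lt_of_lt_of_le h1 ?_
  have : (7 * Nat.card K + 1) / 2 ≤ n := by omega
  exact_mod_cast this

end Pool.Agent.BOG.H69
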