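import Pool.Agent.Helper69_BOG.STB

set_option autoImplicit false

namespace Pool.Agent.BOG.H69

open Polynomial Finset

universe v

theorem sta (hfdm : FdmStmt.{v}) : StaStmt.{v} := by
  intro K _ n m c ν a1 a2 a3 h12 h23 hfr
  classical
  have hfin : ∀ j, Module.Finite K (EE m c ν j) := fun j => (hfdm K n m c ν j).1
  have hne : EE m c ν (a1 + 1) ≠ ⊥ := by
    intro h
    have h1 := hfr (a1 + 1)
    rw [h, finrank_bot] at h1
    omega
  obtain ⟨θ, hθ, hθ0⟩ := Submodule.exists_mem_ne_zero_of_ne_bot hne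
  refine ⟨θ, hθ, hθ0, ?_⟩
  intro j hj φ hφ
  obtain ⟨b, hb⟩ : ∃ b, θ b ≠ 0 := by
    by_contra hcon
    push Not at hcon
    exact hθ0 (funext hcon)
  -- the multiples of θ
  let L : degreeLT K (j - a1) →ₗ[K] (Fin 3 → K[X]) :=
    comb θ (0 : Fin 3 → K[X]) (j - a1) 0 ∘ₗ LinearMap.inl K _ _
  have hL : ∀ q, L q = fun b => (q : K[X]) * θ b := by
    intro q
    funext b
    simp [L, comb]
  have hinj : Function.Injective L := by
    rw [injective_iff_map_eq_zero]
    intro q hq
    rw [hL] at hq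
    have h1 : (q : K[X]) * θ b = 0 := congrFun hq b
    exact Subtype.ext ((mul_eq_zero.mp h1).resolve_right hb)
  have hle : LinearMap.range L ≤ EE m c ν j := by
    rintro _ ⟨q, rfl⟩
    rw [hL]
    exact mul_mem hθ q.2
  have heq : LinearMap.range L = EE m c ν j := by
    haveI := hfin j
    apply Submodule.eq_of_le_of_finrank_eq hle
    rw [LinearMap.finrank_range_of_inj hinj, finrank_lt, hfr j]
    omega
  rw [← heq] at hφ
  obtain ⟨q, hq⟩ := hφ
  refine ⟨q, fun x => ?_⟩
  rw [← hq, hL]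

end Pool.Agent.BOG.H69
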