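import Pool.Agent.BOG.Stmts

set_option autoImplicit false

namespace Pool.Agent.BOG.H69

open Polynomial Finset

universe v

variable {K : Type v} [Field K]

lemma mem_lt {f : K[X]} {j : ℕ} : f ∈ degreeLT K j ↔ f = 0 ∨ f.natDegree < j := by
  rw [mem_degreeLT]
  by_cases h : f = 0
  · subst h
    simp
  · rw [degree_eq_natDegree h]
    simp [h]

lemma finrank_lt (n : ℕ) : Module.finrank K (degreeLT K n) = n := by
  rw [(degreeLTEquiv K n).finrank_eq, Module.finrank_fin_fun]

lemma dot1_mul (m c : K) (q : K[X]) (θ : Fin 3 → K[X]) :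
    dot1 m c (fun b => q * θ b) = q * dot1 m c θ := by
  simp only [dot1]
  ring

lemma mul_mem {n : ℕ} {m c : Fin n → K} {ν a j : ℕ} {θ : Fin 3 → K[X]}
    (hθ : θ ∈ EE m c ν (a + 1)) {q : K[X]} (hq : q ∈ degreeLT K (j - a)) :
    (fun b => q * θ b) ∈ EE m c ν j := by
  refine ⟨fun b => ?_, fun P => ?_⟩
  · rw [mem_lt] at hq ⊢
    rcases hq with rfl | hq
    · left; simp
    · rcases mem_lt.mp (hθ.1 b) with h | h
      · left; simp [h]
      · right
        have := natDegree_mul_le (p := q) (q := θ b)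
        simp only
        omega
  · rw [dot1_mul]
    exact Dvd.dvd.mul_left (hθ.2 P) _

/-- the map `(q1, q2) ↦ q1 θ1 + q2 θ2` -/
noncomputable def comb (θ1 θ2 : Fin 3 → K[X]) (i j : ℕ) :
    (degreeLT K i × degreeLT K j) →ₗ[K] (Fin 3 → K[X]) where
  toFun q := fun b => (q.1 : K[X]) * θ1 b + (q.2 : K[X]) * θ2 b
  map_add' := by
    intro x y
    funext b
    simp only [Prod.fst_add, Prod.snd_add, Submodule.coe_add, Pi.add_apply]
    ring
  map_smul' := by
    intro r x
    funext b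
    simp only [Prod.smul_fst, Prod.smul_snd, Submodule.coe_smul, Pi.smul_apply, RingHom.id_apply,
      smul_eq_C_mul]
    ring

theorem stb (hfdm : FdmStmt.{v}) (hsta : StaStmt.{v}) : StbStmt.{v} := by
  intro K _ n m c ν a1 a2 a3 h12 h23 hfr
  classical
  have hfin : ∀ j, Module.Finite K (EE m c ν j) := fun j => (hfdm K n m c ν j).1
  obtain ⟨θ1, hθ1, hne, hmul⟩ := hsta K n m c ν a1 a2 a3 h12 h23 hfr
  have hbot : EE m c ν a1 = ⊥ := by
    haveI := hfin a1
    apply Submodule.finrank_eq_zero.mp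
    rw [hfr]
    omega
  -- a component of exact degree a1
  obtain ⟨b0, hb0, hb0d⟩ : ∃ b, θ1 b ≠ 0 ∧ (θ1 b).natDegree = a1 := by
    by_contra hcon
    push Not at hcon
    apply hne
    have : θ1 ∈ EE m c ν a1 := by
      refine ⟨fun b => ?_, hθ1.2⟩
      rw [mem_lt]
      rcases mem_lt.mp (hθ1.1 b) with h | h
      · left; exact h
      · by_cases h0 : θ1 b = 0
        · left; exact h0
        · right
          have := hcon b h0
          omega
    rw [hbot, Submodule.mem_bot] at this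
    exact this
  -- the second element
  let T1 : Submodule K (Fin 3 → K[X]) :=
    LinearMap.range (comb θ1 (0 : Fin 3 → K[X]) (a2 + 1 - a1) 0)
  have hT1 : Module.finrank K T1 ≤ a2 + 1 - a1 := by
    have h1 := LinearMap.finrank_range_le (comb θ1 (0 : Fin 3 → K[X]) (a2 + 1 - a1) 0)
    rw [Module.finrank_prod, finrank_lt, finrank_lt] at h1
    simpa using h1
  have hT1le : T1 ≤ EE m c ν (a2 + 1) := by
    rintro _ ⟨q, rfl⟩
    have : comb θ1 (0 : Fin 3 → K[X]) (a2 + 1 - a1) 0 q = fun b => (q.1 : K[X]) * θ1 b := by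
      funext b
      simp [comb]
    rw [this]
    exact mul_mem hθ1 q.1.2
  obtain ⟨θ2, hθ2, hθ2T⟩ : ∃ θ2 ∈ EE m c ν (a2 + 1), θ2 ∉ T1 := by
    by_contra hcon
    push Not at hcon
    have h2 : EE m c ν (a2 + 1) ≤ T1 := fun x hx => hcon x hx
    have h3 : EE m c ν (a2 + 1) = T1 := le_antisymm h2 hT1le
    have h4 := hfr (a2 + 1)
    rw [h3] at h4
    omega
  have hind : ∃ a b, θ1 a * θ2 b ≠ θ1 b * θ2 a := by
    by_contra hcon
    push Not at hcon
    apply hθ2T
    set g := EuclideanDomain.gcd (θ1 b0) (θ2 b0) with hg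
    have hg0 : g ≠ 0 := by
      intro h
      exact hb0 (EuclideanDomain.gcd_eq_zero_iff.mp h).1
    obtain ⟨r, hr⟩ := EuclideanDomain.gcd_dvd_left (θ1 b0) (θ2 b0)
    obtain ⟨q, hq⟩ := EuclideanDomain.gcd_dvd_right (θ1 b0) (θ2 b0)
    rw [← hg] at hr hq
    have hcop : IsCoprime r q := by
      have h1 := EuclideanDomain.gcd_eq_gcd_ab (θ1 b0) (θ2 b0)
      rw [← hg] at h1
      refine ⟨EuclideanDomain.gcdA (θ1 b0) (θ2 b0), EuclideanDomain.gcdB (θ1 b0) (θ2 b0), ?_⟩
      apply mul_left_cancel₀ hg0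
      calc g * (EuclideanDomain.gcdA (θ1 b0) (θ2 b0) * r +
            EuclideanDomain.gcdB (θ1 b0) (θ2 b0) * q)
          = (g * r) * EuclideanDomain.gcdA (θ1 b0) (θ2 b0) +
            (g * q) * EuclideanDomain.gcdB (θ1 b0) (θ2 b0) := by ring
        _ = θ1 b0 * EuclideanDomain.gcdA (θ1 b0) (θ2 b0) +
            θ2 b0 * EuclideanDomain.gcdB (θ1 b0) (θ2 b0) := by rw [← hr, ← hq]
        _ = g * 1 := by rw [← h1, mul_one]
    have hr0 : r ≠ 0 := by
      rintro rfl
      rw [mul_zero] at hr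
      exact hb0 hr
    have hrel : ∀ a, θ1 a * q = r * θ2 a := by
      intro a
      apply mul_left_cancel₀ hg0
      have h1 := hcon a b0
      calc g * (θ1 a * q) = θ1 a * (g * q) := by ring
        _ = θ1 a * θ2 b0 := by rw [← hq]
        _ = θ1 b0 * θ2 a := h1
        _ = (g * r) * θ2 a := by rw [← hr]
        _ = g * (r * θ2 a) := by ring
    have hdvd : ∀ a, r ∣ θ1 a := fun a => hcop.dvd_of_dvd_mul_right ⟨θ2 a, hrel a⟩
    choose φ hφ using hdvd
    have hφ2 : ∀ a, θ2 a = q * φ a := by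
      intro a
      apply mul_left_cancel₀ hr0
      rw [← hrel a, hφ a]
      ring
    have hθ1φ : θ1 = fun b => r * φ b := funext hφ
    have hθ2φ : θ2 = fun b => q * φ b := funext hφ2
    have hφdvd : ∀ P, (X - C (m P)) ^ ν ∣ dot1 (m P) (c P) φ := by
      intro P
      have h1 := hθ1.2 P
      have h2 := hθ2.2 P
      rw [hθ1φ, dot1_mul] at h1
      rw [hθ2φ, dot1_mul] at h2
      obtain ⟨u, w, huw⟩ := hcop
      have h3 : dot1 (m P) (c P) φ = u * (r * dot1 (m P) (c P) φ) +
          w * (q * dot1 (m P) (c P) φ) := by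
        calc dot1 (m P) (c P) φ = 1 * dot1 (m P) (c P) φ := by ring
          _ = (u * r + w * q) * dot1 (m P) (c P) φ := by rw [huw]
          _ = _ := by ring
      rw [h3]
      exact dvd_add (Dvd.dvd.mul_left h1 _) (Dvd.dvd.mul_left h2 _)
    have hrdeg : r.natDegree = 0 := by
      by_contra hr1
      have : φ ∈ EE m c ν a1 := by
        refine ⟨fun b => ?_, hφdvd⟩
        rw [mem_lt]
        by_cases hb : φ b = 0
        · left; exact hb
        · right
          have h1 : (θ1 b).natDegree = r.natDegree + (φ b).natDegree := by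
            rw [hφ b, natDegree_mul hr0 hb]
          rcases mem_lt.mp (hθ1.1 b) with h | h
          · rw [hφ b] at h
            exact absurd h (mul_ne_zero hr0 hb)
          · omega
      rw [hbot, Submodule.mem_bot] at this
      apply hne
      rw [hθ1φ, this]
      funext b
      simp
    rw [natDegree_eq_zero] at hrdeg
    obtain ⟨ρ, hρ⟩ := hrdeg
    have hρ0 : ρ ≠ 0 := by
      rintro rfl
      rw [C_0] at hρ
      exact hr0 hρ.symm
    have hθ2q : ∀ a, θ2 a = (q * C ρ⁻¹) * θ1 a := by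
      intro a
      rw [hφ2 a, hφ a, ← hρ]
      have : C ρ⁻¹ * C ρ = (1 : K[X]) := by
        rw [← C_mul, inv_mul_cancel₀ hρ0, C_1]
      calc q * φ a = q * 1 * φ a := by ring
        _ = q * (C ρ⁻¹ * C ρ) * φ a := by rw [this]
        _ = q * C ρ⁻¹ * (C ρ * φ a) := by ring
    have hqmem : q * C ρ⁻¹ ∈ degreeLT K (a2 + 1 - a1) := by
      rw [mem_lt]
      by_cases hq0 : q * C ρ⁻¹ = 0
      · left; exact hq0
      · right
        have h1 : (θ2 b0).natDegree = (q * C ρ⁻¹).natDegree + (θ1 b0).natDegree := by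
          rw [hθ2q b0, natDegree_mul hq0 hb0]
        rcases mem_lt.mp (hθ2.1 b0) with h | h
        · rw [hθ2q b0] at h
          exact absurd h (mul_ne_zero hq0 hb0)
        · omega
    refine ⟨(⟨q * C ρ⁻¹, hqmem⟩, 0), ?_⟩
    funext b
    simp only [comb, LinearMap.coe_mk, AddHom.coe_mk, Pi.zero_apply, mul_zero, add_zero]
    rw [hθ2q b]
  refine ⟨θ1, hθ1, θ2, hθ2, hind, ?_⟩
  intro j hj φ hφ
  obtain ⟨a, b, hab⟩ := hind
  have hinj : Function.Injective (comb θ1 θ2 (j - a1) (j - a2)) := by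
    rw [injective_iff_map_eq_zero]
    rintro ⟨q1, q2⟩ h
    have h1 : (q1 : K[X]) * θ1 a + (q2 : K[X]) * θ2 a = 0 := congrFun h a
    have h2 : (q1 : K[X]) * θ1 b + (q2 : K[X]) * θ2 b = 0 := congrFun h b
    have hd : θ1 a * θ2 b - θ1 b * θ2 a ≠ 0 := sub_ne_zero.mpr hab
    have h3 : (q1 : K[X]) * (θ1 a * θ2 b - θ1 b * θ2 a) = 0 := by
      linear_combination θ2 b * h1 - θ2 a * h2
    have h4 : (q2 : K[X]) * (θ1 a * θ2 b - θ1 b * θ2 a) = 0 := by
      linear_combination θ1 a * h2 - θ1 b * h1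
    have h5 : (q1 : K[X]) = 0 := (mul_eq_zero.mp h3).resolve_right hd
    have h6 : (q2 : K[X]) = 0 := (mul_eq_zero.mp h4).resolve_right hd
    exact Prod.ext (Subtype.ext h5) (Subtype.ext h6)
  have hle : LinearMap.range (comb θ1 θ2 (j - a1) (j - a2)) ≤ EE m c ν j := by
    rintro _ ⟨q, rfl⟩
    have : comb θ1 θ2 (j - a1) (j - a2) q =
        (fun b => (q.1 : K[X]) * θ1 b) + fun b => (q.2 : K[X]) * θ2 b := by
      funext b
      simp [comb]
    rw [this]
    exact Submodule.add_mem _ (mul_mem hθ1 q.1.2) (mul_mem hθ2 q.2.2)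
  have heq : LinearMap.range (comb θ1 θ2 (j - a1) (j - a2)) = EE m c ν j := by
    haveI := hfin j
    apply Submodule.eq_of_le_of_finrank_eq hle
    rw [LinearMap.finrank_range_of_inj hinj, Module.finrank_prod, finrank_lt, finrank_lt, hfr j]
    omega
  rw [← heq] at hφ
  obtain ⟨q, hq⟩ := hφ
  refine ⟨q.1, q.2, fun x => ?_⟩
  rw [← hq]
  rfl

end Pool.Agent.BOG.H69
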